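import Pool.Agent.GLE.StmtsC

/-!
# GLE, RAD: the radial formula for functions with compact support
-/

namespace Pool.Agent.GLE.H56

open Polynomial MeasureTheory Filter Topology

theorem rad (rdg : RdgStmt) : RadStmt := by
  intro φ hφ hc
  have hcf : Continuous (fderiv ℝ φ) := hφ.continuous_fderiv one_ne_zero
  obtain ⟨L, hL⟩ : ∃ L : (ℂ →L[ℝ] ℝ) → ℂ, L = fun T => (⟨T 1, T Complex.I⟩ : ℂ) := ⟨_, rfl⟩
  have hLc : Continuous L := by
    rw [hL]
    have h1 : (fun T : ℂ →L[ℝ] ℝ => (⟨T 1, T Complex.I⟩ : ℂ)) =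
        fun T => ((T 1 : ℝ) : ℂ) + ((T Complex.I : ℝ) : ℂ) * Complex.I := by
      funext T
      exact (Complex.mk_eq_add_mul_I _ _)
    rw [h1]
    fun_prop
  have hg : grad φ = L ∘ fderiv ℝ φ := by
    rw [hL]
    rfl
  have hgc : Continuous (grad φ) := by
    rw [hg]
    exact hLc.comp hcf
  have hgs : HasCompactSupport (grad φ) := by
    rw [hg]
    refine (hc.fderiv ℝ).comp_left ?_
    rw [hL]
    rfl
  refine ⟨hgc, hgs, hgc.memLp_of_hasCompactSupport hgs, fun a ε hε => ?_⟩
  have hb : ∃ K : ℝ, ∀ z, ‖grad φ z‖ ≤ K / (1 + ‖z‖) ^ 2 := by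
    have h1 : Continuous fun z : ℂ => ((1 + ‖z‖) ^ 2 : ℝ) • grad φ z := by fun_prop
    have h2 : HasCompactSupport fun z : ℂ => ((1 + ‖z‖) ^ 2 : ℝ) • grad φ z := by
      refine hgs.mono ?_
      intro z hz h0
      apply hz
      show ((1 + ‖z‖) ^ 2 : ℝ) • grad φ z = 0
      rw [h0, smul_zero]
    obtain ⟨K, hK⟩ := h1.bounded_above_of_compact_support h2
    refine ⟨K, fun z => ?_⟩
    rw [le_div_iff₀ (by positivity)]
    have h3 := hK z
    rw [norm_smul, Real.norm_eq_abs, abs_of_pos (by positivity)] at h3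
    linarith
  obtain ⟨K, hK⟩ := hb
  refine rdg φ (grad φ) K ∅ hφ.continuous hc.is_zero_at_infty hgc.measurable hK ?_ ?_ a ε hε
  · intro z _
    have h1 : DifferentiableAt ℝ φ z := (hφ.differentiable one_ne_zero) z
    have h2 : innerSL ℝ (grad φ z) = fderiv ℝ φ z := by
      ext w
      rw [innerSL_apply_apply, Complex.inner]
      have h3 : w = (w.re : ℝ) • (1 : ℂ) + (w.im : ℝ) • Complex.I := by
        rw [Complex.real_smul, Complex.real_smul, mul_one]
        exact (Complex.re_add_im w).symm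
      have h4 : fderiv ℝ φ z w = w.re * fderiv ℝ φ z 1 + w.im * fderiv ℝ φ z Complex.I := by
        conv_lhs => rw [h3]
        rw [map_add, map_smul, map_smul, smul_eq_mul, smul_eq_mul]
      rw [h4]
      unfold grad
      simp only [Complex.mul_re, Complex.conj_re, Complex.conj_im]
      ring
    rw [h2]
    exact h1.hasFDerivAt
  · intro a w _
    simp

end Pool.Agent.GLE.H56
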