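import Pool.Agent.GLE.StmtsA

/-!
# GLE, SEP: the polynomials of the critical orbit
-/

namespace Pool.Agent.GLE.H56

open Polynomial MeasureTheory

theorem av_map {R S : Type} [CommRing R] [CommRing S] (f : R →+* S) (m : ℕ) (c : R) :
    f (av m c) = av m (f c) := by
  induction m with
  | zero => exact map_zero f
  | succ m ih =>
    show f ((av m c) ^ 2 + c) = (av m (f c)) ^ 2 + f c
    rw [map_add, map_pow, ih]

theorem av_succ {R : Type} [CommRing R] (m : ℕ) (c : R) : av (m + 1) c = (av m c) ^ 2 + c := rfl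

theorem monic {R : Type} [CommRing R] [Nontrivial R] (m : ℕ) :
    (av (m + 1) (X : R[X])).Monic ∧ (av (m + 1) (X : R[X])).natDegree = 2 ^ m := by
  induction m with
  | zero =>
    have h1 : av (0 + 1) (X : R[X]) = X := by
      show (0 : R[X]) ^ 2 + X = X
      ring
    rw [h1]
    exact ⟨monic_X, natDegree_X⟩
  | succ m ih =>
    have h1 : ((av (m + 1) (X : R[X])) ^ 2).natDegree = 2 ^ (m + 1) := by
      rw [ih.1.natDegree_pow, ih.2, pow_succ, mul_comm]
    have h2 : ((av (m + 1) (X : R[X])) ^ 2).Monic := ih.1.pow 2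
    have h3 : (X : R[X]).natDegree < ((av (m + 1) (X : R[X])) ^ 2).natDegree := by
      rw [h1, natDegree_X]
      exact Nat.one_lt_two_pow (by omega)
    rw [av_succ (m + 1)]
    constructor
    · exact h2.add_of_left (degree_lt_degree h3)
    · rw [natDegree_add_eq_left_of_natDegree_lt h3, h1]

theorem av_eval {R : Type} [CommRing R] (m : ℕ) (z : R) : (av m (X : R[X])).eval z = av m z := by
  have := av_map (evalRingHom z) m (X : R[X])
  rw [coe_evalRingHom, eval_X] at this
  exact this

theorem av_aeval {R S : Type} [CommRing R] [CommRing S] [Algebra R S] (m : ℕ) (z : S) :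
    aeval z (av m (X : R[X])) = av m z := by
  have := av_map (aeval z : R[X] →ₐ[R] S).toRingHom m (X : R[X])
  simp only [AlgHom.toRingHom_eq_coe, RingHom.coe_coe, aeval_X] at this
  exact this

theorem av_mapp {R S : Type} [CommRing R] [CommRing S] (f : R →+* S) (m : ℕ) :
    (av m (X : R[X])).map f = av m (X : S[X]) := by
  have := av_map (mapRingHom f) m (X : R[X])
  rw [coe_mapRingHom, map_X] at this
  exact this

theorem int_aeval {z : ℂ} (hz : IsIntegral ℤ z) (q : ℤ[X]) : IsIntegral ℤ (aeval z q) := by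
  have h1 : z ∈ integralClosure ℤ ℂ := hz
  have h2 := (integralClosure ℤ ℂ).aeval_coe ⟨z, h1⟩ q
  simp only at h2
  rw [h2]
  exact (aeval (⟨z, h1⟩ : integralClosure ℤ ℂ) q).2

theorem half_not : ¬ IsIntegral ℤ (-(1 / 2) : ℂ) := by
  intro h
  have h1 : (-(1 / 2) : ℂ) = algebraMap ℚ ℂ (-(1 / 2)) := by
    rw [eq_ratCast]
    push_cast
    ring
  rw [h1, isIntegral_algebraMap_iff (algebraMap ℚ ℂ).injective, IsIntegrallyClosed.isIntegral_iff] at h
  obtain ⟨n, hn⟩ := h
  rw [eq_intCast] at hn
  have h2 : (2 * n : ℚ) = -1 := by rw [hn]; norm_num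
  have h3 : 2 * n = -1 := by exact_mod_cast h2
  omega

theorem sep (esc : EscStmt) : SepStmt := by
  intro m hm
  obtain ⟨m, rfl⟩ : ∃ k, m = k + 1 := ⟨m - 1, by omega⟩
  rw [Nat.add_sub_cancel]
  refine ⟨(monic m).1, (monic m).2, ?_, fun z => av_aeval _ z, (monic m).1, (monic m).2,
    fun z => av_aeval _ z, (monic m).1, (monic m).2, fun z => av_eval _ z, fun z => ?_, fun z hz => ?_⟩
  · rw [av_mapp]
    unfold Polynomial.Separable
    rw [isCoprime_iff_aeval_ne_zero_of_isAlgClosed ℂ ℂ]
    intro z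
    by_contra hcon
    push Not at hcon
    obtain ⟨h1, h2⟩ := hcon
    rw [av_succ, derivative_add, derivative_pow, derivative_X] at h2
    have hz : IsIntegral ℤ z := by
      refine ⟨av (m + 1) (X : ℤ[X]), (monic m).1, ?_⟩
      rw [← aeval_def, av_aeval]
      rwa [av_aeval] at h1
    have h3 : aeval z (av m (X : ℂ[X])) = aeval z (av m (X : ℤ[X])) := by
      rw [av_aeval, av_aeval]
    have h4 : aeval z (derivative (av m (X : ℂ[X]))) = aeval z (derivative (av m (X : ℤ[X]))) := by
      rw [← av_mapp (Int.castRingHom ℂ), derivative_map, aeval_def, eval₂_map, aeval_def]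
      rfl
    have h5 : IsIntegral ℤ (aeval z (av m (X : ℤ[X])) * aeval z (derivative (av m (X : ℤ[X])))) :=
      (int_aeval hz _).mul (int_aeval hz _)
    rw [← h3, ← h4] at h5
    have h6 : aeval z (av m (X : ℂ[X])) * aeval z (derivative (av m (X : ℂ[X]))) = -(1 / 2) := by
      simp only [map_add, map_mul, map_one, Nat.cast_ofNat, Nat.add_one_sub_one, pow_one,
        map_natCast, map_ofNat, C_ofNat] at h2
      linear_combination (1 / 2) * h2
    rw [h6] at h5
    exact half_not h5
  · have h1 : av (m + 1) = fun w : ℂ => (av (m + 1) (X : ℂ[X])).eval w := by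
      funext w
      rw [av_eval]
    rw [h1, Polynomial.deriv]
  · unfold rt at hz
    rw [Multiset.mem_toFinset, av_mapp, mem_roots ((monic m).1.ne_zero), IsRoot.def, av_eval] at hz
    exact esc.2 (m + 1) z hm hz

end Pool.Agent.GLE.H56
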